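import Mathlib

/-!
# Avoider keeps at most one cycle under linear bias

In the `(1 : b)` Avoider-Enforcer game on `E(K_n)`, under the strict and under the monotone rules,
Avoider has a strategy that keeps his final graph with at most one cycle as soon as `b ≥ 5 n`.

Strategy: claim exactly one edge per turn; as long as a free edge joins two components of
Avoider's forest, claim such an edge with the smallest product of the two component sizes.

Proof: let `D` be the number of ordered pairs `(u, v)` of vertices in one component (equal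
vertices included), `f` the number of free edges, and, for `z ≥ 1`, let `M z` be the number of
ordered pairs `(u, v)` with `u ≠ v` that lie in one component or have `z ≤ s u * s v`, with `s`
the size of the component. While `f ≥ b + 2` the strategy preserves `2 D ≤ 3 n` and
`(b + 1) (D - n) ≤ ∑_{z = 1}^{n / 4} (M z - 2 f)`.
-/

open Finset

namespace Pool.Agent.Results.MP_24f62a_co.LinearBiasOneCycle

/-! ### The game -/

/-- The two rule sets. -/
inductive Rules
  | strict
  | monotone

/-- The board: the edges of the complete graph `K_n`. -/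
def board (n : ℕ) : Finset (Sym2 (Fin n)) := (⊤ : SimpleGraph (Fin n)).edgeFinset

/-- The unclaimed edges, when Avoider has claimed the edges in `A` and Enforcer those in `E`. -/
def free {n : ℕ} (A E : Finset (Sym2 (Fin n))) : Finset (Sym2 (Fin n)) := board n \ (A ∪ E)

/-- When `F` is the set of unclaimed edges, claiming the edges in `X` is a legal turn of a player
who must claim `m` edges: exactly `m` under the strict rules, at least `m` under the monotone
rules, and all of `F` when fewer than `m` edges remain. -/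
def LegalTurn {n : ℕ} (r : Rules) (m : ℕ) (F X : Finset (Sym2 (Fin n))) : Prop :=
  X ⊆ F ∧ match r with
    | Rules.strict => X.card = min m F.card
    | Rules.monotone => min m F.card ≤ X.card

/-- A strategy of Avoider: which edges he claims when he has claimed `A` and Enforcer `E`. -/
abbrev Strategy (n : ℕ) := Finset (Sym2 (Fin n)) → Finset (Sym2 (Fin n)) → Finset (Sym2 (Fin n))

/-- The strategy always makes legal turns of a player who must claim `1` edge. -/
def Strategy.Legal {n : ℕ} (r : Rules) (σ : Strategy n) : Prop :=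
  ∀ A E : Finset (Sym2 (Fin n)), LegalTurn r 1 (free A E) (σ A E)

/-- `A k` and `E k` are the sets of edges claimed by Avoider and by Enforcer after `k` rounds of a
play of the `(1 : b)` game in which Avoider moves first and follows `σ`, and Enforcer makes
arbitrary legal turns. (Once all edges are claimed, the sets no longer change.) -/
structure IsPlay {n : ℕ} (r : Rules) (b : ℕ) (σ : Strategy n)
    (A E : ℕ → Finset (Sym2 (Fin n))) : Prop where
  A_zero : A 0 = ∅
  E_zero : E 0 = ∅
  avoider : ∀ k, A (k + 1) = A k ∪ σ (A k) (E k)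
  enforcer : ∀ k, ∃ Y, LegalTurn r b (free (A (k + 1)) (E k)) Y ∧ E (k + 1) = E k ∪ Y

/-- The graph formed by a set of edges. -/
def gr {n : ℕ} (A : Finset (Sym2 (Fin n))) : SimpleGraph (Fin n) :=
  SimpleGraph.fromEdgeSet (A : Set (Sym2 (Fin n)))

/-- A graph contains at most one cycle: any two cycles have the same edges. -/
def AtMostOneCycle {V : Type*} (G : SimpleGraph V) : Prop :=
  ∀ ⦃u v : V⦄ (p : G.Walk u u) (q : G.Walk v v), p.IsCycle → q.IsCycle →
    ∀ e, e ∈ p.edges ↔ e ∈ q.edges

/-! ### Graphs: adding an edge -/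

lemma gr_union_singleton {n : ℕ} (A : Finset (Sym2 (Fin n))) (u v : Fin n) :
    gr (A ∪ {s(u, v)}) = gr A ⊔ SimpleGraph.edge u v := by
  ext x y
  simp only [gr, SimpleGraph.fromEdgeSet_adj, Finset.coe_union, Finset.coe_singleton,
    SimpleGraph.sup_adj, SimpleGraph.edge, Set.mem_union, Set.mem_singleton_iff]
  tauto

lemma reachable_sup_edge {V : Type*} {G : SimpleGraph V} {u v x y : V}
    (h : (G ⊔ SimpleGraph.edge u v).Reachable x y) :
    G.Reachable x y ∨ (G.Reachable x u ∧ G.Reachable v y) ∨ (G.Reachable x v ∧ G.Reachable u y) := by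
  obtain ⟨p⟩ := h
  induction p with
  | nil => left; exact SimpleGraph.Reachable.refl _
  | @cons a z c hadj p ih =>
    have h1 : G.Adj a z ∨ (a = u ∧ z = v) ∨ (a = v ∧ z = u) := by
      rw [SimpleGraph.sup_adj, SimpleGraph.edge_adj] at hadj
      tauto
    rcases h1 with h1 | ⟨rfl, rfl⟩ | ⟨rfl, rfl⟩
    · have h2 := h1.reachable
      rcases ih with h | ⟨h, h'⟩ | ⟨h, h'⟩
      · left; exact h2.trans h
      · right; left; exact ⟨h2.trans h, h'⟩
      · right; right; exact ⟨h2.trans h, h'⟩
    · rcases ih with h | ⟨h, h'⟩ | ⟨h, h'⟩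
      · right; left; exact ⟨SimpleGraph.Reachable.refl _, h⟩
      · right; left; exact ⟨SimpleGraph.Reachable.refl _, h'⟩
      · left; exact h'
    · rcases ih with h | ⟨h, h'⟩ | ⟨h, h'⟩
      · right; right; exact ⟨SimpleGraph.Reachable.refl _, h⟩
      · left; exact h'
      · right; right; exact ⟨SimpleGraph.Reachable.refl _, h'⟩

/-- The edges of a cycle in a forest plus the edge `s(u, v)`. -/
lemma mem_edges_cycle_iff {V : Type*} {F : SimpleGraph V} (hF : F.IsAcyclic) (u v : V)
    {x : V} (p : (F ⊔ SimpleGraph.edge u v).Walk x x) (hp : p.IsCycle) (e : Sym2 V) :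
    e ∈ p.edges ↔ e = s(u, v) ∨ (e ∈ F.edgeSet ∧ ¬ (F.deleteEdges {e}).Reachable u v) := by
  -- the new edge lies on the cycle
  have hmem : s(u, v) ∈ p.edges := by
    by_contra hcon
    have hq : ∀ e ∈ p.edges, e ∈ F.edgeSet := by
      intro e he
      have h1 := p.edges_subset_edgeSet he
      induction e using Sym2.ind with
      | _ a b =>
        rw [SimpleGraph.mem_edgeSet, SimpleGraph.sup_adj, SimpleGraph.edge_adj] at h1
        rcases h1 with h1 | ⟨⟨rfl, rfl⟩ | ⟨rfl, rfl⟩, -⟩
        · exact h1
        · exact absurd he hcon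
        · rw [Sym2.eq_swap] at he; exact absurd he hcon
    exact hF _ (hp.transfer hq)
  constructor
  · intro he
    by_cases heq : e = s(u, v)
    · left; exact heq
    right
    have h1 := p.edges_subset_edgeSet he
    induction e using Sym2.ind with
    | _ a b =>
      have hFab : F.Adj a b := by
        rw [SimpleGraph.mem_edgeSet, SimpleGraph.sup_adj, SimpleGraph.edge_adj] at h1
        rcases h1 with h1 | ⟨⟨rfl, rfl⟩ | ⟨rfl, rfl⟩, -⟩
        · exact h1
        · exact absurd rfl heq
        · exact absurd Sym2.eq_swap heq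
      refine ⟨hFab, fun hr => ?_⟩
      -- the edge is not a bridge of the big graph
      have h2 : ((F ⊔ SimpleGraph.edge u v).deleteEdges {s(a, b)}).Reachable a b :=
        (SimpleGraph.adj_and_reachable_delete_edges_iff_exists_cycle.2 ⟨x, p, hp, he⟩).2
      have hle : (F ⊔ SimpleGraph.edge u v).deleteEdges {s(a, b)} ≤
          (F.deleteEdges {s(a, b)}) ⊔ SimpleGraph.edge u v := by
        intro c d hcd
        rw [SimpleGraph.deleteEdges_adj, SimpleGraph.sup_adj] at hcd
        rw [SimpleGraph.sup_adj, SimpleGraph.deleteEdges_adj]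
        tauto
      have h3 : (F.deleteEdges {s(a, b)}).Reachable a b := by
        rcases reachable_sup_edge (h2.mono hle) with h | ⟨h, h'⟩ | ⟨h, h'⟩
        · exact h
        · exact (h.trans hr).trans h'
        · exact (h.trans hr.symm).trans h'
      exact (SimpleGraph.isAcyclic_iff_forall_adj_isBridge.1 hF hFab) h3
  · rintro (rfl | ⟨he, hr⟩)
    · exact hmem
    · by_contra hcon
      apply hr
      have hq : ∀ e' ∈ p.edges, e' ∈ ((F ⊔ SimpleGraph.edge u v).deleteEdges {e}).edgeSet := by
        intro e' he'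
        rw [SimpleGraph.edgeSet_deleteEdges]
        refine ⟨p.edges_subset_edgeSet he', ?_⟩
        rintro rfl
        exact hcon he'
      have h2 := (SimpleGraph.adj_and_reachable_delete_edges_iff_exists_cycle.2
        ⟨x, p.transfer _ hq, hp.transfer hq, by
          rw [SimpleGraph.Walk.edges_transfer]; exact hmem⟩).2
      refine h2.mono ?_
      intro c d hcd
      rw [SimpleGraph.deleteEdges_adj, SimpleGraph.deleteEdges_adj, SimpleGraph.sup_adj,
        SimpleGraph.edge_adj] at hcd
      rw [SimpleGraph.deleteEdges_adj]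
      obtain ⟨⟨h3 | ⟨h3, -⟩, h4⟩, h5⟩ := hcd
      · exact ⟨h3, h4⟩
      · exfalso
        apply h5
        rcases h3 with ⟨rfl, rfl⟩ | ⟨rfl, rfl⟩
        · rfl
        · exact Sym2.eq_swap

/-- A forest plus one edge contains at most one cycle. -/
lemma atMostOneCycle_sup_edge {V : Type*} {F : SimpleGraph V} (hF : F.IsAcyclic) (u v : V) :
    AtMostOneCycle (F ⊔ SimpleGraph.edge u v) := by
  intro x y p q hp hq e
  rw [mem_edges_cycle_iff hF u v p hp, mem_edges_cycle_iff hF u v q hq]

lemma atMostOneCycle_of_isAcyclic {V : Type*} {F : SimpleGraph V} (hF : F.IsAcyclic) :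
    AtMostOneCycle F := fun _ _ p _ hp _ => (hF p hp).elim

/-! ### Counting -/

section counting

variable {n : ℕ}

open Classical in
/-- The vertex set of the component of `u`. -/
noncomputable def comp (A : Finset (Sym2 (Fin n))) (u : Fin n) : Finset (Fin n) :=
  univ.filter fun v => (gr A).Reachable u v

/-- The size of the component of `u`. -/
noncomputable def sz (A : Finset (Sym2 (Fin n))) (u : Fin n) : ℕ := (comp A u).card

open Classical in
/-- Ordered pairs of distinct vertices in one component. -/
noncomputable def inn (A : Finset (Sym2 (Fin n))) : Finset (Fin n × Fin n) :=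
  univ.filter fun p => p.1 ≠ p.2 ∧ (gr A).Reachable p.1 p.2

open Classical in
/-- Ordered pairs of distinct vertices in one component or with `z ≤ sz u * sz v`. -/
noncomputable def big (A : Finset (Sym2 (Fin n))) (z : ℕ) : Finset (Fin n × Fin n) :=
  univ.filter fun p => p.1 ≠ p.2 ∧ ((gr A).Reachable p.1 p.2 ∨ z ≤ sz A p.1 * sz A p.2)

/-- Ordered pairs with `z ≤ sz u * sz v`. -/
noncomputable def heavy (A : Finset (Sym2 (Fin n))) (z : ℕ) : Finset (Fin n × Fin n) :=
  univ.filter fun p => z ≤ sz A p.1 * sz A p.2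

lemma sum_sz (A : Finset (Sym2 (Fin n))) : ∑ u, sz A u = n + (inn A).card := by
  classical
  have h1 : ∑ u, sz A u = ((univ : Finset (Fin n × Fin n)).filter
      fun p => (gr A).Reachable p.1 p.2).card := by
    rw [Finset.card_filter, Fintype.sum_prod_type]
    refine Finset.sum_congr rfl fun u _ => ?_
    rw [sz, comp, Finset.card_filter]
  have h2 : ((univ : Finset (Fin n × Fin n)).filter fun p => (gr A).Reachable p.1 p.2) =
      ((univ : Finset (Fin n)).image fun u => (u, u)) ∪ inn A := by
    ext ⟨a, b⟩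
    simp only [mem_filter, mem_univ, true_and, mem_union, mem_image, Prod.mk.injEq, inn]
    constructor
    · intro h
      by_cases hab : a = b
      · left; exact ⟨a, rfl, hab⟩
      · right; exact ⟨hab, h⟩
    · rintro (⟨c, rfl, rfl⟩ | ⟨-, h⟩)
      · exact SimpleGraph.Reachable.refl _
      · exact h
  rw [h1, h2, Finset.card_union_of_disjoint, Finset.card_image_of_injective, Finset.card_univ,
    Fintype.card_fin]
  · intro a b h
    exact (Prod.mk.inj h).1
  · rw [Finset.disjoint_left]
    rintro ⟨a, b⟩ h h'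
    simp only [mem_image, mem_univ, true_and, Prod.mk.injEq, inn, mem_filter] at h h'
    obtain ⟨c, rfl, rfl⟩ := h
    exact h'.1 rfl

lemma sum_sz_mul (A : Finset (Sym2 (Fin n))) :
    ∑ p : Fin n × Fin n, sz A p.1 * sz A p.2 = (n + (inn A).card) ^ 2 := by
  rw [← sum_sz, sq, Finset.sum_mul_sum, Fintype.sum_prod_type]

lemma mul_card_heavy_le (A : Finset (Sym2 (Fin n))) (z : ℕ) :
    z * (heavy A z).card ≤ (n + (inn A).card) ^ 2 := by
  rw [← sum_sz_mul]
  calc z * (heavy A z).card = ∑ p ∈ heavy A z, z := by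
        rw [Finset.sum_const, smul_eq_mul, mul_comm]
    _ ≤ ∑ p ∈ heavy A z, sz A p.1 * sz A p.2 := by
        refine Finset.sum_le_sum fun p hp => ?_
        simpa [heavy] using hp
    _ ≤ ∑ p : Fin n × Fin n, sz A p.1 * sz A p.2 :=
        Finset.sum_le_sum_of_subset_of_nonneg (Finset.subset_univ _) (fun _ _ _ => Nat.zero_le _)

lemma sum_card_heavy_le (A : Finset (Sym2 (Fin n))) (Z : ℕ) :
    ∑ z ∈ Icc 1 Z, (heavy A z).card ≤ (n + (inn A).card) ^ 2 := by
  rw [← sum_sz_mul]
  simp only [heavy, Finset.card_filter]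
  rw [Finset.sum_comm]
  refine Finset.sum_le_sum fun p _ => ?_
  rw [← Finset.card_filter]
  calc ((Icc 1 Z).filter fun z => z ≤ sz A p.1 * sz A p.2).card
      ≤ (Icc 1 (sz A p.1 * sz A p.2)).card := by
        refine Finset.card_le_card ?_
        intro z hz
        simp only [mem_filter, mem_Icc] at hz ⊢
        exact ⟨hz.1.1, hz.2⟩
    _ = sz A p.1 * sz A p.2 := by simp

lemma card_big_le (A : Finset (Sym2 (Fin n))) (z : ℕ) :
    (big A z).card ≤ (inn A).card + (heavy A z).card := by
  classical
  refine (Finset.card_le_card ?_).trans (Finset.card_union_le _ _)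
  intro p hp
  simp only [big, inn, heavy, mem_filter, mem_univ, true_and, mem_union] at hp ⊢
  tauto

lemma gr_mono {A B : Finset (Sym2 (Fin n))} (h : A ⊆ B) : gr A ≤ gr B :=
  SimpleGraph.fromEdgeSet_mono (by exact_mod_cast h)

lemma sz_mono {A B : Finset (Sym2 (Fin n))} (h : A ⊆ B) (u : Fin n) : sz A u ≤ sz B u := by
  refine Finset.card_le_card ?_
  intro v hv
  simp only [comp, mem_filter, mem_univ, true_and] at hv ⊢
  exact hv.mono (gr_mono h)

lemma big_mono {A B : Finset (Sym2 (Fin n))} (h : A ⊆ B) (z : ℕ) :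
    (big A z).card ≤ (big B z).card := by
  refine Finset.card_le_card ?_
  intro p hp
  simp only [big, mem_filter, mem_univ, true_and] at hp ⊢
  refine ⟨hp.1, ?_⟩
  rcases hp.2 with h1 | h1
  · left; exact h1.mono (gr_mono h)
  · right; exact h1.trans (Nat.mul_le_mul (sz_mono h _) (sz_mono h _))

lemma card_inn_le (A : Finset (Sym2 (Fin n))) (u v : Fin n) :
    (inn (A ∪ {s(u, v)})).card ≤ (inn A).card + 2 * (sz A u * sz A v) := by
  classical
  have h : inn (A ∪ {s(u, v)}) ⊆ (inn A ∪ comp A u ×ˢ comp A v) ∪ comp A v ×ˢ comp A u := by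
    rintro ⟨x, y⟩ hp
    simp only [inn, comp, mem_filter, mem_univ, true_and, mem_union, mem_product] at hp ⊢
    rw [gr_union_singleton] at hp
    rcases reachable_sup_edge hp.2 with h | ⟨h, h'⟩ | ⟨h, h'⟩
    · left; left; exact ⟨hp.1, h⟩
    · left; right; exact ⟨h.symm, h'⟩
    · right; exact ⟨h.symm, h'⟩
  refine (Finset.card_le_card h).trans ((Finset.card_union_le _ _).trans ?_)
  refine (Nat.add_le_add_right (Finset.card_union_le _ _) _).trans ?_
  rw [Finset.card_product, Finset.card_product]
  simp only [sz]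
  nlinarith

/-- Ordered pairs forming a free edge. -/
lemma card_pairs (F : Finset (Sym2 (Fin n))) (hF : ∀ e ∈ F, ¬ e.IsDiag) :
    ((univ : Finset (Fin n × Fin n)).filter fun p => s(p.1, p.2) ∈ F).card = 2 * F.card := by
  classical
  have h := Finset.card_eq_sum_card_fiberwise
    (s := (univ : Finset (Fin n × Fin n)).filter fun p => s(p.1, p.2) ∈ F) (t := F)
    (f := fun p => s(p.1, p.2)) (by
      intro p hp
      simpa using hp)
  rw [h, mul_comm]
  rw [Finset.sum_const_nat (m := 2)]
  intro e he
  have hd := hF e he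
  induction e using Sym2.ind with
  | _ a b =>
    have hab : a ≠ b := by simpa using hd
    have : ((univ : Finset (Fin n × Fin n)).filter fun p => s(p.1, p.2) ∈ F).filter
        (fun p => s(p.1, p.2) = s(a, b)) = {(a, b), (b, a)} := by
      ext ⟨c, d⟩
      simp only [mem_filter, mem_univ, true_and, mem_insert, mem_singleton, Prod.mk.injEq,
        Sym2.eq_iff]
      constructor
      · rintro ⟨-, h⟩; exact h
      · rintro (⟨rfl, rfl⟩ | ⟨rfl, rfl⟩)
        · exact ⟨he, Or.inl ⟨rfl, rfl⟩⟩
        · exact ⟨by rw [Sym2.eq_swap]; exact he, Or.inr ⟨rfl, rfl⟩⟩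
    rw [this, Finset.card_pair]
    intro h
    exact hab (Prod.mk.inj h).1

end counting

/-! ### Arithmetic of one round -/

lemma potential_step (b i i' y f f' Z : ℕ) (M M' : ℕ → ℕ) (h1 : ∀ z, M z ≤ M' z)
    (h2 : ∀ z ∈ Icc 1 y, 2 * f ≤ M z) (h3 : f' + (b + 1) ≤ f)
    (h4 : (b + 1) * i ≤ ∑ z ∈ Icc 1 Z, (M z - 2 * f)) (h5 : y ≤ Z) (h6 : i' ≤ i + 2 * y) :
    (b + 1) * i' ≤ ∑ z ∈ Icc 1 Z, (M' z - 2 * f') := by
  have h7 : ∑ z ∈ Icc 1 Z, ((M z - 2 * f) + if z ≤ y then 2 * (b + 1) else 0) ≤
      ∑ z ∈ Icc 1 Z, (M' z - 2 * f') := by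
    refine Finset.sum_le_sum fun z hz => ?_
    rw [mem_Icc] at hz
    have := h1 z
    split_ifs with hzy
    · have := h2 z (mem_Icc.2 ⟨hz.1, hzy⟩)
      omega
    · omega
  rw [Finset.sum_add_distrib, ← Finset.sum_filter] at h7
  have h8 : (Icc 1 Z).filter (fun z => z ≤ y) = Icc 1 y := by
    ext z
    simp only [mem_filter, mem_Icc]
    omega
  rw [h8, Finset.sum_const, Nat.card_Icc, smul_eq_mul] at h7
  have h9 : (b + 1) * i' ≤ (b + 1) * (i + 2 * y) := Nat.mul_le_mul_left _ h6
  have h10 : (y + 1 - 1) * (2 * (b + 1)) = (b + 1) * (2 * y) := by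
    rw [Nat.add_sub_cancel]; ring
  rw [h10] at h7
  rw [mul_add] at h9
  omega

/-- The upper bound for the smallest product at a round which is not the last one. -/
lemma cost_bound (n b i y f : ℕ) (hn : 1 ≤ n) (hb : 5 * n ≤ b) (hi : 2 * i ≤ n) (hf : b + 2 ≤ f)
    (h : y * (2 * f - i) ≤ (n + i) ^ 2) : y ≤ n / 4 := by
  by_contra hcon
  have hy : n < 4 * y := by omega
  have h1 : 19 * n < 2 * (2 * f - i) := by omega
  have h2 : (19 * n + 1) * (n + 1) ≤ (2 * (2 * f - i)) * (4 * y) :=
    Nat.mul_le_mul (by omega) (by omega)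
  have h3 : (2 * (n + i)) ^ 2 ≤ (3 * n) ^ 2 := Nat.pow_le_pow_left (by omega) 2
  nlinarith

/-- The dichotomy for the number of pairs in one component. -/
lemma gap (n b i : ℕ) (hn : 1 ≤ n) (hb : 5 * n ≤ b) (hi : i ≤ n)
    (h : (b + 1) * i ≤ (n / 4) * i + (n + i) ^ 2) : 2 * i ≤ n := by
  by_contra hcon
  have h0 : n < 2 * i := by omega
  have h1 : 4 * (n / 4) ≤ n := by omega
  have h2 : 4 * ((b + 1) * i) ≤ n * i + 4 * (n + i) ^ 2 := by nlinarith
  have h3 : 4 * ((5 * n + 1) * i) ≤ n * i + 4 * (n + i) ^ 2 :=
    le_trans (Nat.mul_le_mul_left _ (Nat.mul_le_mul_right _ (by omega))) h2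
  obtain ⟨j, rfl⟩ : ∃ j, n = i + j := ⟨n - i, by omega⟩
  nlinarith [Nat.zero_le j, Nat.zero_le i, mul_pos (show 0 < i by omega) (show 0 < i by omega)]

/-! ### The strategy -/

section strategy

variable {n : ℕ}

/-- The product of the sizes of the components of the two endpoints of an edge. -/
noncomputable def cost (A : Finset (Sym2 (Fin n))) (e : Sym2 (Fin n)) : ℕ :=
  Sym2.lift ⟨fun u v => sz A u * sz A v, fun _ _ => mul_comm _ _⟩ e

lemma cost_mk (A : Finset (Sym2 (Fin n))) (u v : Fin n) : cost A s(u, v) = sz A u * sz A v := rfl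

open Classical in
/-- The free edges joining two different components of Avoider's graph. -/
noncomputable def outerFree (A E : Finset (Sym2 (Fin n))) : Finset (Sym2 (Fin n)) :=
  (free A E).filter fun e => ¬ ∀ x ∈ e, ∀ y ∈ e, (gr A).Reachable x y

lemma mem_outerFree {A E : Finset (Sym2 (Fin n))} {e : Sym2 (Fin n)} :
    e ∈ outerFree A E ↔ e ∈ free A E ∧ ¬ ∀ x ∈ e, ∀ y ∈ e, (gr A).Reachable x y := by
  simp only [outerFree, mem_filter]

open Classical in
/-- Avoider's strategy: claim a free edge joining two components with the smallest product of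
component sizes; if there is none, claim any free edge. -/
noncomputable def strat : Strategy n := fun A E =>
  if h : (outerFree A E).Nonempty then
    {(Finset.exists_min_image (outerFree A E) (cost A) h).choose}
  else if h' : (free A E).Nonempty then {h'.choose} else ∅

lemma strat_spec (A E : Finset (Sym2 (Fin n))) (hne : (free A E).Nonempty) :
    ∃ e ∈ free A E, strat A E = {e} ∧ ((outerFree A E).Nonempty →
      e ∈ outerFree A E ∧ ∀ e' ∈ outerFree A E, cost A e ≤ cost A e') := by
  by_cases h : (outerFree A E).Nonempty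
  · have hs := (Finset.exists_min_image (outerFree A E) (cost A) h).choose_spec
    refine ⟨(Finset.exists_min_image (outerFree A E) (cost A) h).choose, ?_, ?_, fun _ => hs⟩
    · exact (mem_outerFree.1 hs.1).1
    · simp only [strat, dif_pos h]
  · refine ⟨hne.choose, hne.choose_spec, ?_, fun h' => absurd h' h⟩
    simp only [strat, dif_neg h, dif_pos hne]

lemma strat_empty (A E : Finset (Sym2 (Fin n))) (he : free A E = ∅) : strat A E = ∅ := by
  have h1 : ¬ (free A E).Nonempty := by rw [he]; exact Finset.not_nonempty_empty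
  have h2 : ¬ (outerFree A E).Nonempty := by
    rintro ⟨e, h⟩
    exact h1 ⟨e, (mem_outerFree.1 h).1⟩
  simp only [strat, dif_neg h2, dif_neg h1]

lemma strat_legal (r : Rules) : Strategy.Legal r (strat (n := n)) := by
  intro A E
  rcases (free A E).eq_empty_or_nonempty with h | h
  · rw [strat_empty A E h, h]
    refine ⟨subset_rfl, ?_⟩
    cases r <;> simp
  · obtain ⟨e, he, hs, -⟩ := strat_spec A E h
    rw [hs]
    have hc : min 1 (free A E).card = 1 := min_eq_left (Finset.card_pos.2 h)
    refine ⟨Finset.singleton_subset_iff.2 he, ?_⟩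
    cases r
    · simp only [Finset.card_singleton, hc]
    · simp only [Finset.card_singleton, hc, le_refl]

lemma mem_free {A E : Finset (Sym2 (Fin n))} {e : Sym2 (Fin n)} :
    e ∈ free A E ↔ ¬ e.IsDiag ∧ e ∉ A ∧ e ∉ E := by
  induction e using Sym2.ind with
  | _ a b => simp [free, board]

/-- After Avoider claims the free edge `e` and Enforcer makes a legal turn, at least `b + 1` edges
have been claimed, or the game is over. -/
lemma card_free_step (r : Rules) (b : ℕ) (A E Y : Finset (Sym2 (Fin n))) (e : Sym2 (Fin n))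
    (he : e ∈ free A E) (hY : LegalTurn r b (free (A ∪ {e}) E) Y) :
    (free (A ∪ {e}) (E ∪ Y)).card ≤ (free A E).card - (b + 1) := by
  have h1 : free (A ∪ {e}) E = (free A E).erase e := by
    ext x
    simp only [mem_free, mem_union, mem_singleton, mem_erase]
    tauto
  have h2 : free (A ∪ {e}) (E ∪ Y) = free (A ∪ {e}) E \ Y := by
    ext x
    simp only [mem_free, mem_union, mem_sdiff]
    tauto
  have h3 : (free (A ∪ {e}) E).card = (free A E).card - 1 := by
    rw [h1, Finset.card_erase_of_mem he]
  have h4 : min b (free (A ∪ {e}) E).card ≤ Y.card := by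
    obtain ⟨-, hY⟩ := hY
    cases r
    · exact hY.ge
    · exact hY
  rw [h2, Finset.card_sdiff_of_subset hY.1]
  omega

/-- The invariant at Avoider's turns. -/
def Inv (b : ℕ) (A E : Finset (Sym2 (Fin n))) : Prop :=
  (gr A).IsAcyclic ∧ 2 * (inn A).card ≤ n ∧
    (b + 1) * (inn A).card ≤ ∑ z ∈ Icc 1 (n / 4), ((big A z).card - 2 * (free A E).card)

/-- A lower bound for the number of big pairs. -/
lemma two_mul_card_free_le (A E : Finset (Sym2 (Fin n))) (z : ℕ)
    (h : ∀ e ∈ outerFree A E, z ≤ cost A e) : 2 * (free A E).card ≤ (big A z).card := by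
  classical
  rw [← card_pairs (free A E) (fun e he => (mem_free.1 he).1)]
  refine Finset.card_le_card ?_
  rintro ⟨x, y⟩ hp
  simp only [mem_filter, mem_univ, true_and, big] at hp ⊢
  have h1 := (mem_free.1 hp).1
  refine ⟨by simpa using h1, ?_⟩
  by_cases hr : (gr A).Reachable x y
  · left; exact hr
  · right
    refine h s(x, y) ?_
    rw [mem_outerFree]
    refine ⟨hp, fun hcon => hr (hcon x (Sym2.mem_mk_left x y) y (Sym2.mem_mk_right x y))⟩

lemma exists_outerFree (b : ℕ) (hb : 5 * n ≤ b) (A E : Finset (Sym2 (Fin n)))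
    (hinv : Inv b A E) (hf : b + 2 ≤ (free A E).card) : (outerFree A E).Nonempty := by
  classical
  by_contra hcon
  rw [Finset.not_nonempty_iff_eq_empty] at hcon
  have h1 : 2 * (free A E).card ≤ (inn A).card := by
    rw [← card_pairs (free A E) (fun e he => (mem_free.1 he).1)]
    refine Finset.card_le_card ?_
    rintro ⟨x, y⟩ hp
    simp only [mem_filter, mem_univ, true_and, inn] at hp ⊢
    have h1 := (mem_free.1 hp).1
    refine ⟨by simpa using h1, ?_⟩
    by_contra hr
    have : s(x, y) ∈ outerFree A E := by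
      rw [mem_outerFree]
      exact ⟨hp, fun hcon => hr (hcon x (Sym2.mem_mk_left x y) y (Sym2.mem_mk_right x y))⟩
    rw [hcon] at this
    exact absurd this (Finset.notMem_empty _)
  have h2 := hinv.2.1
  omega

lemma inv_step (r : Rules) (b : ℕ) (hn : 1 ≤ n) (hb : 5 * n ≤ b)
    (A E Y : Finset (Sym2 (Fin n))) (hinv : Inv b A E) (hf : b + 2 ≤ (free A E).card)
    (hY : LegalTurn r b (free (A ∪ strat A E) E) Y) :
    Inv b (A ∪ strat A E) (E ∪ Y) ∧
      (free (A ∪ strat A E) (E ∪ Y)).card + (b + 1) ≤ (free A E).card := by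
  have hne : (free A E).Nonempty := by
    rw [← Finset.card_pos]; omega
  obtain ⟨e, he, hs, hmin⟩ := strat_spec A E hne
  obtain ⟨heo, hmin⟩ := hmin (exists_outerFree b hb A E hinv hf)
  rw [hs] at hY ⊢
  have hcard := card_free_step r b A E Y e he hY
  have hcard' : (free (A ∪ {e}) (E ∪ Y)).card + (b + 1) ≤ (free A E).card := by omega
  refine ⟨?_, hcard'⟩
  induction e using Sym2.ind with
  | _ u v =>
    obtain ⟨hac, hi, hpot⟩ := hinv
    have huv : ¬ (gr A).Reachable u v := by
      intro hcon
      apply (mem_outerFree.1 heo).2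
      intro x hx y hy
      rw [Sym2.mem_iff] at hx hy
      rcases hx with rfl | rfl <;> rcases hy with rfl | rfl
      · exact SimpleGraph.Reachable.refl _
      · exact hcon
      · exact hcon.symm
      · exact SimpleGraph.Reachable.refl _
    set y := sz A u * sz A v with hy
    have hbig : 2 * (free A E).card ≤ (big A y).card := two_mul_card_free_le A E y hmin
    have hyb : y ≤ n / 4 := by
      refine cost_bound n b (inn A).card y (free A E).card hn hb hi hf ?_
      refine le_trans (Nat.mul_le_mul_left _ ?_) (mul_card_heavy_le A y)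
      have := card_big_le A y
      omega
    have hinn : (inn (A ∪ {s(u, v)})).card ≤ (inn A).card + 2 * y := card_inn_le A u v
    have hpot' := potential_step b (inn A).card (inn (A ∪ {s(u, v)})).card y (free A E).card
      (free (A ∪ {s(u, v)}) (E ∪ Y)).card (n / 4) (fun z => (big A z).card)
      (fun z => (big (A ∪ {s(u, v)}) z).card) (fun z => big_mono Finset.subset_union_left z)
      (by
        intro z hz
        rw [mem_Icc] at hz
        exact two_mul_card_free_le A E z (fun e' he' => hz.2.trans (hmin e' he')))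
      hcard' hpot hyb hinn
    refine ⟨?_, ?_, hpot'⟩
    · rw [gr_union_singleton]
      exact hac.sup_edge_of_not_reachable huv
    · refine gap n b _ hn hb (by omega) (hpot'.trans ?_)
      calc ∑ z ∈ Icc 1 (n / 4), ((big (A ∪ {s(u, v)}) z).card
              - 2 * (free (A ∪ {s(u, v)}) (E ∪ Y)).card)
          ≤ ∑ z ∈ Icc 1 (n / 4), ((inn (A ∪ {s(u, v)})).card
              + (heavy (A ∪ {s(u, v)}) z).card) :=
            Finset.sum_le_sum fun z _ => (Nat.sub_le _ _).trans (card_big_le _ z)
        _ = (n / 4) * (inn (A ∪ {s(u, v)})).card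
              + ∑ z ∈ Icc 1 (n / 4), (heavy (A ∪ {s(u, v)}) z).card := by
            rw [Finset.sum_add_distrib, Finset.sum_const, Nat.card_Icc, Nat.add_sub_cancel,
              smul_eq_mul]
        _ ≤ _ := Nat.add_le_add_left (sum_card_heavy_le _ _) _

lemma inv_start (b : ℕ) : Inv (n := n) b ∅ ∅ := by
  have h1 : gr (∅ : Finset (Sym2 (Fin n))) = ⊥ := by simp [gr]
  have h2 : inn (∅ : Finset (Sym2 (Fin n))) = ∅ := by
    ext ⟨x, y⟩
    simp only [inn, h1, mem_filter, mem_univ, true_and, SimpleGraph.reachable_bot,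
      Finset.notMem_empty, iff_false]
    tauto
  refine ⟨?_, ?_, ?_⟩
  · rw [h1]; exact SimpleGraph.isAcyclic_bot
  · rw [h2]; simp
  · rw [h2]; simp

lemma finish (r : Rules) (b : ℕ) (hn : 1 ≤ n) (hb : 5 * n ≤ b)
    (A E : ℕ → Finset (Sym2 (Fin n))) (hp : IsPlay r b strat A E) :
    ∀ m k, (free (A k) (E k)).card ≤ m → Inv b (A k) (E k) →
      ∃ j, free (A j) (E j) = ∅ ∧ AtMostOneCycle (gr (A j)) := by
  intro m
  induction m with
  | zero =>
    intro k hk hinv
    exact ⟨k, Finset.card_eq_zero.1 (by omega), atMostOneCycle_of_isAcyclic hinv.1⟩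
  | succ m ih =>
    intro k hk hinv
    obtain ⟨Y, hY, hE⟩ := hp.enforcer k
    have hA := hp.avoider k
    rcases (free (A k) (E k)).eq_empty_or_nonempty with h0 | h0
    · exact ⟨k, h0, atMostOneCycle_of_isAcyclic hinv.1⟩
    by_cases hf : b + 2 ≤ (free (A k) (E k)).card
    · rw [hA] at hY
      obtain ⟨h1, h2⟩ := inv_step r b hn hb (A k) (E k) Y hinv hf hY
      refine ih (k + 1) ?_ ?_
      · rw [hA, hE]; omega
      · rw [hA, hE]; exact h1
    · -- the last round
      obtain ⟨e, he, hs, -⟩ := strat_spec (A k) (E k) h0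
      rw [hA, hs] at hY
      have hcard := card_free_step r b (A k) (E k) Y e he hY
      refine ⟨k + 1, ?_, ?_⟩
      · rw [hA, hE, hs, ← Finset.card_eq_zero]; omega
      · rw [hA, hs]
        induction e using Sym2.ind with
        | _ u v =>
          rw [gr_union_singleton]
          exact atMostOneCycle_sup_edge hinv.1 u v

end strategy

/-- **Linear bias suffices.** For all `n ≥ 1` and `b ≥ 5 n`, in the `(1 : b)` Avoider-Enforcer
game on `E(K_n)` played with the strict or with the monotone rules, Avoider (who moves first) has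
a strategy `σ`, always making legal turns, such that every play in which he follows it ends, and
his final graph then contains at most one cycle. -/
theorem result (n b : ℕ) (hn : 1 ≤ n) (hb : 5 * n ≤ b) (r : Rules) :
    ∃ σ : Strategy n, σ.Legal r ∧ ∀ A E : ℕ → Finset (Sym2 (Fin n)), IsPlay r b σ A E →
      ∃ k, free (A k) (E k) = ∅ ∧ AtMostOneCycle (gr (A k)) := by
  refine ⟨strat, strat_legal r, fun A E hp => ?_⟩
  refine finish r b hn hb A E hp _ 0 le_rfl ?_
  rw [hp.A_zero, hp.E_zero]
  exact inv_start b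

end Pool.Agent.Results.MP_24f62a_co.LinearBiasOneCycle
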